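import Mathlib

/-!
If `p = 3 t² + 1` is prime and `3 ∤ t`, then `2` is not a cube modulo `p`.
-/

namespace Pool.Agent.H354R2.CubicTwo

open Finset

/-- elements of `ℤ[ω]` -/
lemma mem_adjoin_form {ω : ℂ} (hω : ω ^ 2 = -1 - ω) {z : ℂ}
    (hz : z ∈ Algebra.adjoin ℤ {ω}) : ∃ a b : ℤ, z = a + b * ω := by
  induction hz using Algebra.adjoin_induction with
  | mem x hx =>
    rw [Set.mem_singleton_iff] at hx
    subst hx
    exact ⟨0, 1, by simp⟩
  | algebraMap r => exact ⟨r, 0, by simp⟩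
  | add x y _ _ hx hy =>
    obtain ⟨a, b, rfl⟩ := hx
    obtain ⟨c, d, rfl⟩ := hy
    exact ⟨a + c, b + d, by push_cast; ring⟩
  | mul x y _ _ hx hy =>
    obtain ⟨a, b, rfl⟩ := hx
    obtain ⟨c, d, rfl⟩ := hy
    refine ⟨a * c - b * d, a * d + b * c - b * d, ?_⟩
    push_cast
    linear_combination (b * d : ℂ) * hω

lemma coeff_unique {ω : ℂ} (him : ω.im ≠ 0) {a b c d : ℤ}
    (h : (a : ℂ) + b * ω = c + d * ω) : a = c ∧ b = d := by
  have h2 := congrArg Complex.im h
  simp at h2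
  have hbd' : b = d := by
    rcases h2 with h2 | h2
    · exact_mod_cast h2
    · exact absurd h2 him
  subst hbd'
  refine ⟨?_, rfl⟩
  have : (a : ℂ) = c := by linear_combination h
  exact_mod_cast this

/-- The parity of the Jacobi sum. -/
lemma jacobi_parity {p : ℕ} [Fact p.Prime] (hp2 : p ≠ 2) (χ : MulChar (ZMod p) ℂ) (hχ3 : χ ^ 3 = 1)
    {ω : ℂ} (hω : IsPrimitiveRoot ω 3) (h2 : χ 2 = 1) :
    ∃ z ∈ Algebra.adjoin ℤ {ω}, jacobiSum χ χ = 1 + 2 * z := by
  classical
  have hmem : ∀ x : ZMod p, χ x ∈ Algebra.adjoin ℤ {ω} := fun x =>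
    MulChar.apply_mem_algebraAdjoin_of_pow_eq_one hχ3 hω x
  set f : ZMod p → ℂ := fun x => χ x * χ (1 - x) with hf
  have hsymm : ∀ x, f (1 - x) = f x := by
    intro x
    simp only [hf, sub_sub_cancel]
    ring
  have h20 : (2 : ZMod p) ≠ 0 := by
    intro h
    have : ((2 : ℕ) : ZMod p) = 0 := by exact_mod_cast h
    rw [ZMod.natCast_eq_zero_iff] at this
    have h3 := (Nat.prime_dvd_prime_iff_eq Fact.out Nat.prime_two).mp this
    exact hp2 h3
  set S1 : Finset (ZMod p) := univ.filter (fun x => x.val < (1 - x).val) with hS1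
  set S2 : Finset (ZMod p) := univ.filter (fun x => (1 - x).val < x.val) with hS2
  have hfix : ∀ x : ZMod p, x.val = (1 - x).val ↔ x = 2⁻¹ := by
    intro x
    constructor
    · intro h
      have h' : x = 1 - x := ZMod.val_injective p h
      have : 2 * x = 1 := by linear_combination h'
      exact eq_inv_of_mul_eq_one_right this
    · intro h
      have h1 : (2 : ZMod p) * 2⁻¹ = 1 := mul_inv_cancel₀ h20
      have : x = 1 - x := by
        rw [h]; linear_combination h1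
      rw [← this]
  have hsum : ∑ x, f x = f 2⁻¹ + 2 * ∑ x ∈ S1, f x := by
    have hun : (univ : Finset (ZMod p)) = {2⁻¹} ∪ (S1 ∪ S2) := by
      ext x
      simp only [mem_univ, mem_union, mem_singleton, hS1, hS2, mem_filter, true_and, true_iff]
      rcases lt_trichotomy x.val (1 - x).val with h | h | h
      · right; left; exact h
      · left; exact (hfix x).mp h
      · right; right; exact h
    have hd1 : Disjoint S1 S2 := by
      rw [Finset.disjoint_left]
      intro x hx hx'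
      simp only [hS1, hS2, mem_filter, mem_univ, true_and] at hx hx'
      omega
    have hd2 : Disjoint ({2⁻¹} : Finset (ZMod p)) (S1 ∪ S2) := by
      rw [Finset.disjoint_left]
      intro x hx hx'
      simp only [hS1, hS2, mem_union, mem_filter, mem_univ, true_and, mem_singleton] at hx hx'
      have := (hfix x).mpr hx
      omega
    have hS21 : ∑ x ∈ S2, f x = ∑ x ∈ S1, f x := by
      refine Finset.sum_bij' (fun x _ => 1 - x) (fun x _ => 1 - x) ?_ ?_ ?_ ?_ ?_
      · intro x hx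
        simp only [hS1, hS2, mem_filter, mem_univ, true_and, sub_sub_cancel] at hx ⊢
        exact hx
      · intro x hx
        simp only [hS1, hS2, mem_filter, mem_univ, true_and, sub_sub_cancel] at hx ⊢
        exact hx
      · intro x _; simp
      · intro x _; simp
      · intro x _; exact (hsymm x).symm
    rw [hun, Finset.sum_union hd2, Finset.sum_union hd1, Finset.sum_singleton, hS21]
    ring
  have hhalf : f 2⁻¹ = 1 := by
    have h1 : (2 : ZMod p) * 2⁻¹ = 1 := mul_inv_cancel₀ h20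
    have h3 : (1 : ZMod p) - 2⁻¹ = 2⁻¹ := by linear_combination -h1
    have h4 : χ (2 : ZMod p) * χ (2⁻¹ : ZMod p) = 1 := by
      rw [← map_mul, h1, map_one]
    rw [h2, one_mul] at h4
    simp only [hf, h3, h4, mul_one]
  refine ⟨∑ x ∈ S1, f x, ?_, ?_⟩
  · exact Subalgebra.sum_mem _ fun x _ => Subalgebra.mul_mem _ (hmem _) (hmem _)
  · show ∑ x, f x = _
    rw [hsum, hhalf]

/-- uniqueness of representations -/
lemma rep_unique {p : ℤ} (hp : Prime p) (hpos : 0 < p) {t x y : ℤ} (h1 : p = 1 + 3 * t ^ 2)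
    (h2 : p = x ^ 2 + 3 * y ^ 2) : y ^ 2 = t ^ 2 := by
  have hdvd : p ∣ (y - t * x) * (y + t * x) := by
    refine ⟨y ^ 2 - t ^ 2, ?_⟩
    have : (y - t * x) * (y + t * x) = y ^ 2 - t ^ 2 * x ^ 2 := by ring
    rw [this]
    have hx : x ^ 2 = p - 3 * y ^ 2 := by linarith
    rw [hx]
    have ht : 3 * t ^ 2 = p - 1 := by linarith
    linear_combination (y ^ 2) * ht
  have key : ∀ ε : ℤ, ε ^ 2 = 1 → p ∣ y - ε * (t * x) → y ^ 2 = t ^ 2 := by
    intro ε hε hd
    have hid : p ^ 2 = (x + 3 * ε * t * y) ^ 2 + 3 * (y - ε * (t * x)) ^ 2 := by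
      have : p ^ 2 = (1 + 3 * t ^ 2) * (x ^ 2 + 3 * y ^ 2) := by
        rw [← h1, ← h2]; ring
      rw [this]
      linear_combination (-(9 * t ^ 2 * y ^ 2) - 3 * t ^ 2 * x ^ 2) * hε
    obtain ⟨c, hc⟩ := hd
    have hc0 : c = 0 := by
      by_contra hne
      have hc1 : 1 ≤ c ^ 2 := by
        have : 0 < c ^ 2 := by positivity
        linarith
      have h3 : 3 * (p * c) ^ 2 ≤ p ^ 2 := by
        rw [← hc]; nlinarith [sq_nonneg (x + 3 * ε * t * y)]
      have h4 : 0 < p ^ 2 := by positivity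
      nlinarith
    rw [hc0, mul_zero] at hc
    have hy : y = ε * (t * x) := by linarith
    have hy2 : y ^ 2 = t ^ 2 * x ^ 2 := by
      rw [hy]; linear_combination (t ^ 2 * x ^ 2) * hε
    have hx2 : (x ^ 2 - 1) * p = 0 := by
      have h5 : p = x ^ 2 + 3 * (t ^ 2 * x ^ 2) := by rw [← hy2]; exact h2
      have : p = x ^ 2 * p := by
        conv_lhs => rw [h5]
        rw [h1]; ring
      linarith
    rcases mul_eq_zero.mp hx2 with h | h
    · have : x ^ 2 = 1 := by linarith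
      rw [hy2, this, mul_one]
    · omega
  rcases hp.dvd_or_dvd hdvd with h | h
  · exact key 1 (by norm_num) (by simpa using h)
  · refine key (-1) (by norm_num) ?_
    have : y - -1 * (t * x) = y + t * x := by ring
    rw [this]; exact h

theorem two_not_cube {p : ℕ} (hp : p.Prime) {t : ℕ} (hpt : p = 3 * t ^ 2 + 1) (ht : ¬ 3 ∣ t) :
    ¬ ∃ u : ZMod p, u ^ 3 = 2 := by
  rintro ⟨u, hu⟩
  have : Fact p.Prime := ⟨hp⟩
  have hp2 : p ≠ 2 := by
    intro h
    rw [h] at hpt
    omega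
  have hω := Complex.isPrimitiveRoot_exp 3 (by norm_num)
  set ω : ℂ := Complex.exp (2 * Real.pi * Complex.I / (3 : ℕ)) with hωdef
  have hgeom : 1 + ω + ω ^ 2 = 0 := by
    have := hω.geom_sum_eq_zero (by norm_num)
    simpa [Finset.sum_range_succ] using this
  have hω2 : ω ^ 2 = -1 - ω := by linear_combination hgeom
  have hω3 : ω ^ 3 = 1 := hω.pow_eq_one
  have him : ω.im ≠ 0 := by
    intro h
    have h1 : ω = (ω.re : ℂ) := by
      apply Complex.ext <;> simp [h]
    rw [h1] at hgeom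
    have h2 : (1 : ℝ) + ω.re + ω.re ^ 2 = 0 := by exact_mod_cast hgeom
    nlinarith [sq_nonneg (ω.re + 1 / 2)]
  have hcard : Fintype.card (ZMod p) = p := ZMod.card p
  have h3 : 3 ∣ Fintype.card (ZMod p) - 1 := by
    rw [hcard, hpt]
    exact ⟨t ^ 2, by omega⟩
  obtain ⟨χ, hχ⟩ := MulChar.exists_mulChar_orderOf (ZMod p) h3 hω
  have hχ3 : χ ^ 3 = 1 := by rw [← hχ]; exact pow_orderOf_eq_one χ
  have hχ1 : χ ≠ 1 := by
    intro h
    rw [h, orderOf_one] at hχ
    omega
  have hχχ : χ * χ ≠ 1 := by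
    intro h
    have h' : χ ^ 2 = 1 := by rw [sq]; exact h
    have := orderOf_dvd_of_pow_eq_one h'
    rw [hχ] at this
    omega
  -- χ 2 = 1
  have hu0 : u ≠ 0 := by
    intro h
    rw [h] at hu
    have h20 : (2 : ZMod p) ≠ 0 := by
      intro h
      have : ((2 : ℕ) : ZMod p) = 0 := by exact_mod_cast h
      rw [ZMod.natCast_eq_zero_iff] at this
      have h3 := (Nat.prime_dvd_prime_iff_eq hp Nat.prime_two).mp this
      exact hp2 h3
    apply h20
    rw [← hu]; ring
  have hχ2 : χ 2 = 1 := by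
    rw [← hu, map_pow]
    have := DFunLike.congr_fun hχ3 u
    rw [MulChar.pow_apply' _ (by norm_num), MulChar.one_apply (isUnit_iff_ne_zero.mpr hu0)] at this
    exact this
  -- the Jacobi sum
  obtain ⟨z, hz, hJz⟩ := exists_jacobiSum_eq_neg_one_add (n := 3) (by norm_num) hχ3 hχ3 h3 hω
  obtain ⟨w, hw, hJw⟩ := jacobi_parity hp2 χ hχ3 hω hχ2
  obtain ⟨c, d, rfl⟩ := mem_adjoin_form hω2 hz
  obtain ⟨e, f, rfl⟩ := mem_adjoin_form hω2 hw
  have hJ1 : jacobiSum χ χ = ((-1 + 3 * d : ℤ) : ℂ) + ((3 * d - 3 * c : ℤ) : ℂ) * ω := by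
    rw [hJz]
    push_cast
    linear_combination ((c : ℂ) + d * ω - 3 * d) * hω2
  have hJ2 : jacobiSum χ χ = ((1 + 2 * e : ℤ) : ℂ) + ((2 * f : ℤ) : ℂ) * ω := by
    rw [hJw]
    push_cast
    ring
  obtain ⟨hab1, hab2⟩ := coeff_unique him (hJ1.symm.trans hJ2)
  -- norm
  have hconj : (starRingEnd ℂ) ω = -1 - ω := by
    have h1 : (starRingEnd ℂ) ω = ω⁻¹ := by
      have := hω.norm'_eq_one (by norm_num)
      exact (Complex.inv_eq_conj this).symm
    rw [h1]
    have hω0 : ω ≠ 0 := hω.ne_zero (by norm_num)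
    field_simp
    linear_combination hgeom
  have hchar : ringChar ℂ ≠ ringChar (ZMod p) := by
    rw [ZMod.ringChar_zmod_n, ringChar.eq_zero]
    exact hp.ne_zero.symm
  have hmul := jacobiSum_mul_jacobiSum_inv hchar hχ1 hχ1 hχχ
  have hJconj : jacobiSum χ⁻¹ χ⁻¹ = (starRingEnd ℂ) (jacobiSum χ χ) := by
    rw [← jacobiSum_ringHomComp]
    have : χ.ringHomComp (starRingEnd ℂ) = χ⁻¹ := MulChar.star_eq_inv χ
    rw [this]
  rw [hJconj, hJ2, hcard] at hmul
  simp only [map_add, map_mul, hconj, map_intCast] at hmul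
  have hnorm : (p : ℤ) = (1 + 2 * e) ^ 2 - (1 + 2 * e) * (2 * f) + (2 * f) ^ 2 := by
    have : ((p : ℤ) : ℂ) = (((1 + 2 * e) ^ 2 - (1 + 2 * e) * (2 * f) + (2 * f) ^ 2 : ℤ) : ℂ) := by
      push_cast
      push_cast at hmul
      rw [← hmul]
      linear_combination (-(4 * (f : ℂ) ^ 2)) * hω2
    exact_mod_cast this
  obtain ⟨g, hg⟩ : (3 : ℤ) ∣ f := by omega
  have hnorm2 : (p : ℤ) = (1 + 2 * e - f) ^ 2 + 3 * f ^ 2 := by
    rw [hnorm]; ring
  have hfin := rep_unique (p := (p : ℤ)) (Nat.prime_iff_prime_int.mp hp)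
    (by exact_mod_cast hp.pos) (t := t) (by rw [hpt]; push_cast; ring) hnorm2
  have : (3 : ℤ) ∣ (t : ℤ) ^ 2 := by
    rw [← hfin, hg]
    exact ⟨3 * g ^ 2, by ring⟩
  have h3t : (3 : ℤ) ∣ (t : ℤ) := Int.Prime.dvd_pow' Nat.prime_three this
  exact ht (by exact_mod_cast h3t)

end Pool.Agent.H354R2.CubicTwo
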